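import Pool.Agent.H411R2.WSK.Defs

/-!
# Kempe changes: recolouring closed sets, colour swaps, single vertices
-/

set_option autoImplicit false

namespace Pool.Agent.J4H91.Kempe

open Pool.Agent.H411R2.WSK

variable {V : Type*} {G : SimpleGraph V} {m : ℕ}

/-- Swapping two colours on a set which is a union of Kempe chains is a sequence of Kempe changes. -/
theorem reach_of_closed [Finite V] (a b : Fin m) (hab : a ≠ b) (S : Set V) :
    ∀ (c c' : G.Coloring (Fin m)), (∀ v ∈ S, c v = a ∨ c v = b) →
      (∀ v ∈ S, ∀ w, G.Adj v w → (c w = a ∨ c w = b) → w ∈ S) →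
      (∀ v ∈ S, c' v = Equiv.swap a b (c v)) → (∀ v, v ∉ S → c' v = c v) →
      Relation.ReflTransGen KempeStep c c' := by
  classical
  have := Fintype.ofFinite V
  induction hn : S.ncard using Nat.strong_induction_on generalizing S with
  | _ n ih =>
    intro c c' hS hcl h1 h2
    rcases S.eq_empty_or_nonempty with hE | ⟨v, hv⟩
    · have : c = c' := by
        ext1 v
        exact (h2 v (by rw [hE]; exact Set.notMem_empty v)).symm
      rw [this]
    · -- the Kempe chain of `v`
      let A : Set V := {v : V | c v = a ∨ c v = b}
      let K : (G.induce A).ConnectedComponent := (G.induce A).connectedComponentMk ⟨v, hS v hv⟩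
      let S' : Set V := {w | ∃ h : w ∈ A, (⟨w, h⟩ : A) ∈ K.supp}
      have hS'S : S' ⊆ S := by
        rintro w ⟨hw, hwK⟩
        have hr : (G.induce A).Reachable ⟨v, hS v hv⟩ ⟨w, hw⟩ := by
          have := SimpleGraph.ConnectedComponent.exact hwK
          exact this.symm
        obtain ⟨p⟩ := hr
        have key : ∀ (x y : A) (p : (G.induce A).Walk x y), x.1 ∈ S → y.1 ∈ S := by
          intro x y p
          induction p with
          | nil => exact fun h => h
          | @cons x y z hxy _ ih =>
            intro hx
            exact ih (hcl x.1 hx y.1 hxy y.2)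
        exact key _ _ p hv
      have hvS' : v ∈ S' := ⟨hS v hv, rfl⟩
      have hS'cl : ∀ x ∈ S', ∀ y, G.Adj x y → (c y = a ∨ c y = b) → y ∈ S' := by
        rintro x ⟨hx, hxK⟩ y hxy hy
        refine ⟨hy, ?_⟩
        have hadj : (G.induce A).Adj ⟨x, hx⟩ ⟨y, hy⟩ := hxy
        have h3 : (G.induce A).connectedComponentMk ⟨y, hy⟩ =
            (G.induce A).connectedComponentMk ⟨x, hx⟩ :=
          SimpleGraph.ConnectedComponent.sound hadj.symm.reachable
        rw [SimpleGraph.ConnectedComponent.mem_supp_iff] at hxK ⊢
        rw [h3, hxK]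
      -- the intermediate colouring
      have hproper : ∀ x y, G.Adj x y →
          (if x ∈ S' then Equiv.swap a b (c x) else c x) ≠
            (if y ∈ S' then Equiv.swap a b (c y) else c y) := by
        intro x y hxy
        have hne : c x ≠ c y := c.valid hxy
        by_cases hx : x ∈ S' <;> by_cases hy : y ∈ S'
        · simp only [hx, hy, if_true]
          exact fun h => hne ((Equiv.swap a b).injective h)
        · simp only [hx, hy, if_true, if_false]
          intro h
          have hcx : c x = a ∨ c x = b := hx.1
          have hcy : c y = a ∨ c y = b := by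
            rw [← h]
            rcases hcx with h' | h' <;> rw [h'] <;> simp
          exact hy (hS'cl x hx y hxy hcy)
        · simp only [hx, hy, if_true, if_false]
          intro h
          have hcy : c y = a ∨ c y = b := hy.1
          have hcx : c x = a ∨ c x = b := by
            rw [h]
            rcases hcy with h' | h' <;> rw [h'] <;> simp
          exact hx (hS'cl y hy x hxy.symm hcx)
        · simp only [hx, hy, if_false]
          exact hne
      let c1 : G.Coloring (Fin m) := SimpleGraph.Coloring.mk
        (fun x => if x ∈ S' then Equiv.swap a b (c x) else c x) (fun {x y} h => hproper x y h)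
      have hc1in : ∀ x ∈ S', c1 x = Equiv.swap a b (c x) := by
        intro x hx
        change (if x ∈ S' then Equiv.swap a b (c x) else c x) = _
        rw [if_pos hx]
      have hc1out : ∀ x, x ∉ S' → c1 x = c x := by
        intro x hx
        change (if x ∈ S' then Equiv.swap a b (c x) else c x) = _
        rw [if_neg hx]
      have hstep : KempeStep c c1 := by
        refine ⟨a, b, hab, K, ?_, ?_⟩
        · intro w hw hwK
          exact hc1in w ⟨hw, hwK⟩
        · intro w hw
          exact hc1out w hw
      refine Relation.ReflTransGen.head hstep ?_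
      -- the rest
      have hlt : (S \ S').ncard < n := by
        rw [← hn]
        apply Set.ncard_lt_ncard _ (Set.toFinite S)
        refine ⟨Set.sdiff_subset, fun h => ?_⟩
        exact (h hv).2 hvS'
      have hA : ∀ x, (c1 x = a ∨ c1 x = b) ↔ (c x = a ∨ c x = b) := by
        intro x
        by_cases hx : x ∈ S'
        · rw [hc1in x hx]
          have hcx : c x = a ∨ c x = b := hx.1
          constructor
          · intro _; exact hcx
          · intro _
            rcases hcx with h' | h' <;> rw [h'] <;> simp
        · rw [hc1out x hx]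
      refine ih _ hlt (S \ S') rfl c1 c' ?_ ?_ ?_ ?_
      · intro x hx
        rw [hA]
        exact hS x hx.1
      · intro x hx y hxy hy
        rw [hA] at hy
        refine ⟨hcl x hx.1 y hxy hy, fun hyS => hx.2 ?_⟩
        exact hS'cl y hyS x hxy.symm (hS x hx.1)
      · intro x hx
        rw [h1 x hx.1, hc1out x hx.2]
      · intro x hx
        by_cases hxS' : x ∈ S'
        · rw [h1 x (hS'S hxS'), hc1in x hxS']
        · rw [hc1out x hxS']
          exact h2 x (fun h => hx ⟨h, hxS'⟩)

/-- Kempe reachability is symmetric. -/
theorem reach_symm [Finite V] {c c' : G.Coloring (Fin m)}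
    (h : Relation.ReflTransGen KempeStep c c') : Relation.ReflTransGen KempeStep c' c := by
  have hstep : ∀ c c' : G.Coloring (Fin m), KempeStep c c' →
      Relation.ReflTransGen KempeStep c' c := by
    intro c c' ⟨a, b, hab, K, h1, h2⟩
    let A : Set V := {v : V | c v = a ∨ c v = b}
    let S' : Set V := {w | ∃ h : w ∈ A, (⟨w, h⟩ : A) ∈ K.supp}
    have hA : ∀ x, (c' x = a ∨ c' x = b) ↔ (c x = a ∨ c x = b) := by
      intro x
      by_cases hx : x ∈ S'
      · obtain ⟨hx1, hx2⟩ := hx
        rw [h1 x hx1 hx2]
        have hcx : c x = a ∨ c x = b := hx1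
        constructor
        · intro _; exact hcx
        · intro _
          rcases hcx with h' | h' <;> rw [h'] <;> simp
      · rw [h2 x hx]
    refine reach_of_closed a b hab S' c' c ?_ ?_ ?_ ?_
    · rintro x ⟨hx, _⟩
      rw [hA]
      exact hx
    · rintro x ⟨hx, hxK⟩ y hxy hy
      rw [hA] at hy
      refine ⟨hy, ?_⟩
      have hadj : (G.induce A).Adj ⟨x, hx⟩ ⟨y, hy⟩ := hxy
      have h3 : (G.induce A).connectedComponentMk ⟨y, hy⟩ =
          (G.induce A).connectedComponentMk ⟨x, hx⟩ :=
        SimpleGraph.ConnectedComponent.sound hadj.symm.reachable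
      rw [SimpleGraph.ConnectedComponent.mem_supp_iff] at hxK ⊢
      rw [h3, hxK]
    · rintro x ⟨hx, hxK⟩
      rw [h1 x hx hxK, Equiv.swap_apply_self]
    · intro x hx
      exact (h2 x hx).symm
  induction h with
  | refl => exact Relation.ReflTransGen.refl
  | tail _ hs ih => exact (hstep _ _ hs).trans ih

/-- Recolouring one vertex. -/
theorem reach_vertex [Finite V] [DecidableEq V] (c : G.Coloring (Fin m)) (v : V) (b : Fin m)
    (h : ∀ w, G.Adj v w → c w ≠ b) :
    ∃ c' : G.Coloring (Fin m), Relation.ReflTransGen KempeStep c c' ∧ c' v = b ∧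
      ∀ w, w ≠ v → c' w = c w := by
  by_cases hb : c v = b
  · exact ⟨c, Relation.ReflTransGen.refl, hb, fun _ _ => rfl⟩
  have hproper : ∀ x y, G.Adj x y → (if x = v then b else c x) ≠ (if y = v then b else c y) := by
    intro x y hxy
    by_cases hx : x = v <;> by_cases hy : y = v
    · subst hx; subst hy; exact absurd hxy (G.loopless.irrefl _)
    · subst hx
      simp only [if_true, hy, if_false]
      exact (h y hxy).symm
    · subst hy
      simp only [if_true, hx, if_false]
      exact h x hxy.symm
    · simp only [hx, hy, if_false]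
      exact c.valid hxy
  let c' : G.Coloring (Fin m) := SimpleGraph.Coloring.mk
    (fun x => if x = v then b else c x) (fun {x y} h => hproper x y h)
  have h1 : c' v = b := by
    change (if v = v then b else c v) = b
    rw [if_pos rfl]
  have h2 : ∀ w, w ≠ v → c' w = c w := by
    intro w hw
    change (if w = v then b else c w) = c w
    rw [if_neg hw]
  refine ⟨c', ?_, h1, h2⟩
  refine reach_of_closed (c v) b hb {v} c c' ?_ ?_ ?_ ?_
  · intro x hx
    rw [Set.mem_singleton_iff.mp hx]
    exact Or.inl rfl
  · intro x hx y hxy hy
    rw [Set.mem_singleton_iff.mp hx] at hxy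
    rcases hy with hy | hy
    · exact absurd hy.symm (c.valid hxy)
    · exact absurd hy (h y hxy)
  · intro x hx
    rw [Set.mem_singleton_iff.mp hx, h1, Equiv.swap_apply_left]
  · intro x hx
    exact h2 x hx

/-- Exchanging two colours everywhere. -/
theorem reach_swap [Finite V] (c : G.Coloring (Fin m)) (a b : Fin m) (hab : a ≠ b) :
    ∃ c' : G.Coloring (Fin m), Relation.ReflTransGen KempeStep c c' ∧
      ∀ w, c' w = Equiv.swap a b (c w) := by
  let c' : G.Coloring (Fin m) := SimpleGraph.Coloring.mk
    (fun x => Equiv.swap a b (c x)) (fun {x y} h h' =>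
      c.valid h ((Equiv.swap a b).injective h'))
  refine ⟨c', ?_, fun w => rfl⟩
  refine reach_of_closed a b hab {v | c v = a ∨ c v = b} c c' (fun v hv => hv)
    (fun v hv w hvw hw => hw) (fun v hv => rfl) ?_
  intro v hv
  have h1 : c v ≠ a := fun h => hv (Or.inl h)
  have h2 : c v ≠ b := fun h => hv (Or.inr h)
  exact Equiv.swap_apply_of_ne_of_ne h1 h2

end Pool.Agent.J4H91.Kempe
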