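import Pool.Agent.J4H91.Kempe.Basic

/-!
# Colourings of graphs of independence number at most two

A colouring of such a graph has colour classes with at most two vertices. If `d` is a fixed colouring
which does not use all colours, every colouring `c` is transformed into `d`: first every pair of
vertices which forms a class of `d` is made a class of `c`, then the other pairs are split, then the names of
the colours are exchanged.
-/

set_option autoImplicit false

namespace Pool.Agent.J4H91.Kempe

open Pool.Agent.H411R2.WSK Finset

variable {V : Type*} [Fintype V] [DecidableEq V] {G : SimpleGraph V} {m : ℕ}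

/-- colour classes have at most two vertices -/
theorem class_le_two (h3 : ∀ x y z : V, x ≠ y → x ≠ z → y ≠ z → G.Adj x y ∨ G.Adj x z ∨ G.Adj y z)
    (c : G.Coloring (Fin m)) {x y z : V} (hxy : x ≠ y) (h1 : c x = c y) (h2 : c x = c z) :
    z = x ∨ z = y := by
  by_contra hc
  push Not at hc
  rcases h3 x y z hxy (Ne.symm hc.1) (Ne.symm hc.2) with h | h | h
  · exact c.valid h h1
  · exact c.valid h h2
  · exact c.valid h (h1.symm.trans h2)

/-- the number of vertices and of singleton classes together is twice the number of colours used:
upper bound for a colouring missing a colour -/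
theorem count_upper (h3 : ∀ x y z : V, x ≠ y → x ≠ z → y ≠ z → G.Adj x y ∨ G.Adj x z ∨ G.Adj y z)
    (c : G.Coloring (Fin m)) (e : Fin m) (he : ∀ v, c v ≠ e) :
    Fintype.card V + (univ.filter fun v => ∀ w, c w = c v → w = v).card + 2 ≤ 2 * m := by
  have h1 : Fintype.card V = ∑ a : Fin m, (univ.filter fun v => c v = a).card := by
    rw [← card_univ]
    exact card_eq_sum_card_fiberwise (fun v _ => mem_coe.2 (mem_univ _))
  have h2 : (univ.filter fun v => ∀ w, c w = c v → w = v).card =
      ∑ a : Fin m, ((univ.filter fun v => ∀ w, c w = c v → w = v).filter fun v => c v = a).card :=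
    card_eq_sum_card_fiberwise (fun v _ => mem_coe.2 (mem_univ _))
  rw [h1, h2, ← sum_add_distrib]
  have hterm : ∀ a : Fin m, (univ.filter fun v => c v = a).card +
      ((univ.filter fun v => ∀ w, c w = c v → w = v).filter fun v => c v = a).card ≤ 2 := by
    intro a
    by_cases hF : 2 ≤ (univ.filter fun v => c v = a).card
    · obtain ⟨x, hx, y, hy, hxy⟩ := one_lt_card.mp (by omega : 1 < (univ.filter fun v => c v = a).card)
      have hx' : c x = a := by simpa using hx
      have hy' : c y = a := by simpa using hy
      have hsub : (univ.filter fun v => c v = a) ⊆ {x, y} := by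
        intro z hz
        have hz' : c z = a := by simpa using hz
        rcases class_le_two h3 c hxy (hx'.trans hy'.symm) (hx'.trans hz'.symm) with h | h <;>
          simp [h]
      have h4 : (univ.filter fun v => c v = a).card ≤ 2 :=
        (card_le_card hsub).trans card_le_two
      have h5 : ((univ.filter fun v => ∀ w, c w = c v → w = v).filter fun v => c v = a) = ∅ := by
        rw [eq_empty_iff_forall_notMem]
        intro z hz
        rw [mem_filter, mem_filter] at hz
        obtain ⟨⟨-, hz1⟩, hz2⟩ := hz
        have e1 := hz1 x (hx'.trans hz2.symm)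
        have e2 := hz1 y (hy'.trans hz2.symm)
        exact hxy (e1.trans e2.symm)
      rw [h5, card_empty]
      omega
    · have h4 : ((univ.filter fun v => ∀ w, c w = c v → w = v).filter fun v => c v = a).card ≤
          (univ.filter fun v => c v = a).card := by
        apply card_le_card
        intro z hz
        rw [mem_filter] at hz
        simpa using hz.2
      omega
  have hterm0 : (univ.filter fun v => c v = e).card +
      ((univ.filter fun v => ∀ w, c w = c v → w = v).filter fun v => c v = e).card = 0 := by
    have h4 : (univ.filter fun v => c v = e) = ∅ := by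
      rw [eq_empty_iff_forall_notMem]
      intro z hz
      exact he z (by simpa using hz)
    have h5 : ((univ.filter fun v => ∀ w, c w = c v → w = v).filter fun v => c v = e) = ∅ := by
      rw [eq_empty_iff_forall_notMem]
      intro z hz
      rw [mem_filter] at hz
      exact he z hz.2
    rw [h4, h5, card_empty]
  rw [← add_sum_erase univ _ (mem_univ e), hterm0, zero_add]
  have h6 := sum_le_card_nsmul (univ.erase e) (fun a => (univ.filter fun v => c v = a).card +
      ((univ.filter fun v => ∀ w, c w = c v → w = v).filter fun v => c v = a).card) 2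
      (fun a _ => hterm a)
  rw [card_erase_of_mem (mem_univ e), card_univ, Fintype.card_fin] at h6
  have hm : 0 < m := e.pos
  have h7 : (m - 1) • 2 = 2 * m - 2 := by
    rw [smul_eq_mul]
    omega
  rw [h7] at h6
  omega

/-- lower bound for a colouring using all colours -/
theorem count_lower (c : G.Coloring (Fin m)) (hs : ∀ a, ∃ v, c v = a) :
    2 * m ≤ Fintype.card V + (univ.filter fun v => ∀ w, c w = c v → w = v).card := by
  have h1 : Fintype.card V = ∑ a : Fin m, (univ.filter fun v => c v = a).card := by
    rw [← card_univ]
    exact card_eq_sum_card_fiberwise (fun v _ => mem_coe.2 (mem_univ _))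
  have h2 : (univ.filter fun v => ∀ w, c w = c v → w = v).card =
      ∑ a : Fin m, ((univ.filter fun v => ∀ w, c w = c v → w = v).filter fun v => c v = a).card :=
    card_eq_sum_card_fiberwise (fun v _ => mem_coe.2 (mem_univ _))
  rw [h1, h2, ← sum_add_distrib]
  have hterm : ∀ a ∈ (univ : Finset (Fin m)), 2 ≤ (univ.filter fun v => c v = a).card +
      ((univ.filter fun v => ∀ w, c w = c v → w = v).filter fun v => c v = a).card := by
    intro a _
    obtain ⟨x, hx⟩ := hs a
    by_cases hF : 2 ≤ (univ.filter fun v => c v = a).card
    · omega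
    · have h4 : 0 < (univ.filter fun v => c v = a).card := card_pos.mpr ⟨x, by simp [hx]⟩
      have h5 : 0 < ((univ.filter fun v => ∀ w, c w = c v → w = v).filter fun v => c v = a).card := by
        refine card_pos.mpr ⟨x, ?_⟩
        rw [mem_filter, mem_filter]
        refine ⟨⟨mem_univ _, ?_⟩, hx⟩
        intro w hw
        by_contra hne
        apply hF
        exact one_lt_card.mpr ⟨w, by simp [hw, hx], x, by simp [hx], hne⟩
      omega
  have h6 := card_nsmul_le_sum univ _ 2 hterm
  rw [card_univ, Fintype.card_fin, smul_eq_mul] at h6
  omega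

/-- pairs of distinct vertices which have the same colour in both colourings -/
def agree (c d : V → Fin m) : Finset (V × V) :=
  univ.filter fun p => p.1 ≠ p.2 ∧ c p.1 = c p.2 ∧ d p.1 = d p.2

/-- pairs of distinct vertices which have the same colour only in the first colouring -/
def bad (c d : V → Fin m) : Finset (V × V) :=
  univ.filter fun p => p.1 ≠ p.2 ∧ c p.1 = c p.2 ∧ d p.1 ≠ d p.2

/-- first stage: a colouring with a pair of `d` which is not a pair of `c` can be improved -/
theorem stage_one (h3 : ∀ x y z : V, x ≠ y → x ≠ z → y ≠ z → G.Adj x y ∨ G.Adj x z ∨ G.Adj y z)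
    (c d : G.Coloring (Fin m)) (e : Fin m) (he : ∀ v, d v ≠ e)
    (hne : ∃ x y, x ≠ y ∧ d x = d y ∧ c x ≠ c y) :
    ∃ c' : G.Coloring (Fin m), Relation.ReflTransGen KempeStep c c' ∧
      (agree c d).card < (agree c' d).card := by
  -- making a pair `{x, y}` of `d` a class, where all other vertices keep their colours
  have gain : ∀ c' : G.Coloring (Fin m), ∀ x y, x ≠ y → d x = d y → c x ≠ c y → c' x = c' y →
      (∀ w, w ≠ x → w ≠ y → c' w = c w) → (agree c d).card < (agree c' d).card := by
    intro c' x y hxy hd hc hc' hout
    apply card_lt_card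
    rw [Finset.ssubset_iff_of_subset]
    · refine ⟨(x, y), ?_, ?_⟩
      · simp only [agree, mem_filter, mem_univ, true_and]
        exact ⟨hxy, hc', hd⟩
      · simp only [agree, mem_filter, mem_univ, true_and]
        exact fun h => hc h.2.1
    · rintro ⟨z, w⟩ hzw
      simp only [agree, mem_filter, mem_univ, true_and] at hzw ⊢
      obtain ⟨h4, h5, h6⟩ := hzw
      refine ⟨h4, ?_, h6⟩
      -- neither `z` nor `w` is `x` or `y`
      have key : ∀ z w, z ≠ w → c z = c w → d z = d w → z ≠ x ∧ z ≠ y := by
        intro z w h4 h5 h6
        refine ⟨fun h => ?_, fun h => ?_⟩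
        · subst h
          rcases class_le_two h3 d hxy hd h6 with h | h
          · exact h4 h.symm
          · subst h; exact hc h5
        · subst h
          rcases class_le_two h3 d hxy hd (hd.trans h6) with h | h
          · subst h; exact hc h5.symm
          · exact h4 h.symm
      obtain ⟨h7, h8⟩ := key z w h4 h5 h6
      obtain ⟨h9, h10⟩ := key w z (Ne.symm h4) h5.symm h6.symm
      rw [hout z h7 h8, hout w h9 h10, h5]
  by_cases hs : ∀ a, ∃ v, c v = a
  · -- all colours are used: some singleton class of `c` is not one of `d`
    have h4 := count_upper h3 d e he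
    have h5 := count_lower c hs
    have h6 : ¬ (univ.filter fun v => ∀ w, c w = c v → w = v) ⊆
        (univ.filter fun v => ∀ w, d w = d v → w = v) := by
      intro h
      have := card_le_card h
      omega
    rw [Finset.not_subset] at h6
    obtain ⟨x, hx, hx'⟩ := h6
    simp only [mem_filter, mem_univ, true_and] at hx hx'
    push Not at hx'
    obtain ⟨y, hy, hyx⟩ := hx'
    -- recolour `y` with the colour of `x`
    obtain ⟨c', hr, h7, h8⟩ := reach_vertex c y (c x) (by
      intro w hw h
      have := hx w h
      subst this
      exact d.valid hw hy)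
    refine ⟨c', hr, gain c' x y (Ne.symm hyx) hy.symm ?_ ?_ ?_⟩
    · intro h
      exact hyx (hx y h.symm)
    · rw [h7, h8 x (Ne.symm hyx)]
    · intro w _ hw
      exact h8 w hw
  · -- some colour is not used
    push Not at hs
    obtain ⟨f, hf⟩ := hs
    obtain ⟨x, y, hxy, hd, hc⟩ := hne
    obtain ⟨c1, hr1, h4, h5⟩ := reach_vertex c x f (fun w _ => hf w)
    obtain ⟨c2, hr2, h6, h7⟩ := reach_vertex c1 y f (by
      intro w hw h
      by_cases hwx : w = x
      · subst hwx
        exact d.valid hw hd.symm
      · rw [h5 w hwx] at h
        exact hf w h)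
    refine ⟨c2, hr1.trans hr2, gain c2 x y hxy hd hc ?_ ?_⟩
    · rw [h6, h7 x hxy, h4]
    · intro w hw1 hw2
      rw [h7 w hw2, h5 w hw1]

/-- second stage: if all pairs of `d` are pairs of `c`, a further pair of `c` can be split -/
theorem stage_two (h3 : ∀ x y z : V, x ≠ y → x ≠ z → y ≠ z → G.Adj x y ∨ G.Adj x z ∨ G.Adj y z)
    (c d : G.Coloring (Fin m)) (e : Fin m) (he : ∀ v, d v ≠ e)
    (hall : ∀ x y, d x = d y → c x = c y)
    (hne : ∃ x y, x ≠ y ∧ c x = c y ∧ d x ≠ d y) :
    ∃ c' : G.Coloring (Fin m), Relation.ReflTransGen KempeStep c c' ∧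
      (bad c' d).card < (bad c d).card ∧ ∀ x y, d x = d y → c' x = c' y := by
  have hs : ∃ f, ∀ v, c v ≠ f := by
    by_contra hs
    push Not at hs
    have h4 := count_upper h3 d e he
    have h5 := count_lower c hs
    have h6 : (univ.filter fun v => ∀ w, c w = c v → w = v) ⊆
        (univ.filter fun v => ∀ w, d w = d v → w = v) := by
      intro v hv
      simp only [mem_filter, mem_univ, true_and] at hv ⊢
      intro w hw
      exact hv w (hall w v hw)
    have := card_le_card h6
    omega
  obtain ⟨f, hf⟩ := hs
  obtain ⟨x, y, hxy, hc, hd⟩ := hne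
  obtain ⟨c1, hr1, h4, h5⟩ := reach_vertex c x f (fun w _ => hf w)
  refine ⟨c1, hr1, ?_, ?_⟩
  · apply card_lt_card
    rw [Finset.ssubset_iff_of_subset]
    · refine ⟨(x, y), ?_, ?_⟩
      · simp only [bad, mem_filter, mem_univ, true_and]
        exact ⟨hxy, hc, hd⟩
      · simp only [bad, mem_filter, mem_univ, true_and]
        intro h
        have h6 := h.2.1
        rw [h4, h5 y (Ne.symm hxy)] at h6
        exact hf y h6.symm
    · rintro ⟨z, w⟩ hzw
      simp only [bad, mem_filter, mem_univ, true_and] at hzw ⊢
      obtain ⟨h6, h7, h8⟩ := hzw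
      refine ⟨h6, ?_, h8⟩
      by_cases hz : z = x
      · subst hz
        rw [h4, h5 w (Ne.symm h6)] at h7
        exact absurd h7.symm (hf w)
      · by_cases hw : w = x
        · subst hw
          rw [h4, h5 z hz] at h7
          exact absurd h7 (hf z)
        · rw [h5 z hz, h5 w hw] at h7
          exact h7
  · intro z w hzw
    by_cases hzw' : z = w
    · rw [hzw']
    -- `x` has no partner in `d`
    have key : ∀ z, z ≠ x → d z ≠ d x := by
      intro z hz h
      rcases class_le_two h3 c hxy hc (hall x z h.symm) with h9 | h9
      · exact hz h9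
      · subst h9; exact hd h.symm
    by_cases hz : z = x
    · subst hz
      exact absurd hzw.symm (key w (Ne.symm hzw'))
    · by_cases hw : w = x
      · subst hw
        exact absurd hzw (key z hz)
      · rw [h5 z hz, h5 w hw]
        exact hall z w hzw

/-- third stage: colourings with the same classes -/
theorem stage_three (c d : G.Coloring (Fin m)) (h1 : ∀ x y, c x = c y ↔ d x = d y)
    (hne : c ≠ d) :
    ∃ c' : G.Coloring (Fin m), Relation.ReflTransGen KempeStep c c' ∧
      (univ.filter fun v => c' v ≠ d v).card < (univ.filter fun v => c v ≠ d v).card ∧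
      ∀ x y, c' x = c' y ↔ d x = d y := by
  have hex : ∃ v, c v ≠ d v := by
    by_contra h
    push Not at h
    exact hne (by ext1 v; exact h v)
  obtain ⟨v, hv⟩ := hex
  obtain ⟨c', hr, hc'⟩ := reach_swap c (c v) (d v) hv
  refine ⟨c', hr, ?_, ?_⟩
  · apply card_lt_card
    rw [Finset.ssubset_iff_of_subset]
    · refine ⟨v, by simp [hv], ?_⟩
      simp only [mem_filter, mem_univ, true_and, not_not]
      rw [hc', Equiv.swap_apply_left]
    · intro w hw
      simp only [mem_filter, mem_univ, true_and] at hw ⊢
      intro h
      apply hw
      rw [hc', h]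
      by_cases hwv : d w = d v
      · -- then `c w = c v`, so `d v = c v`
        exfalso
        have h4 := (h1 w v).mpr hwv
        exact hv (h4.symm.trans (h.trans hwv))
      · have h5 : d w ≠ c v := by
          intro h6
          exact hwv ((h1 w v).mp (h.trans h6))
        exact Equiv.swap_apply_of_ne_of_ne h5 hwv
  · intro x y
    rw [hc', hc', (Equiv.swap (c v) (d v)).injective.eq_iff]
    exact h1 x y

/-- every colouring is reachable to `d` if `d` misses a colour -/
theorem reach_missing (h3 : ∀ x y z : V, x ≠ y → x ≠ z → y ≠ z → G.Adj x y ∨ G.Adj x z ∨ G.Adj y z)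
    (d : G.Coloring (Fin m)) (e : Fin m) (he : ∀ v, d v ≠ e) (c : G.Coloring (Fin m)) :
    Relation.ReflTransGen KempeStep c d := by
  -- third stage
  have s3 : ∀ n, ∀ c : G.Coloring (Fin m), (univ.filter fun v => c v ≠ d v).card ≤ n →
      (∀ x y, c x = c y ↔ d x = d y) → Relation.ReflTransGen KempeStep c d := by
    intro n
    induction n with
    | zero =>
      intro c hn h1
      by_cases hcd : c = d
      · rw [hcd]
      · obtain ⟨c', _, h2, _⟩ := stage_three c d h1 hcd
        omega
    | succ n ih =>
      intro c hn h1
      by_cases hcd : c = d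
      · rw [hcd]
      · obtain ⟨c', hr, h2, h4⟩ := stage_three c d h1 hcd
        exact hr.trans (ih c' (by omega) h4)
  -- second stage
  have s2 : ∀ n, ∀ c : G.Coloring (Fin m), (bad c d).card ≤ n →
      (∀ x y, d x = d y → c x = c y) → Relation.ReflTransGen KempeStep c d := by
    intro n
    induction n with
    | zero =>
      intro c hn h1
      by_cases hb : ∃ x y, x ≠ y ∧ c x = c y ∧ d x ≠ d y
      · obtain ⟨c', _, h2, _⟩ := stage_two h3 c d e he h1 hb
        omega
      · push Not at hb
        refine s3 _ c le_rfl (fun x y => ⟨fun h => ?_, h1 x y⟩)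
        by_cases hxy : x = y
        · rw [hxy]
        · exact hb x y hxy h
    | succ n ih =>
      intro c hn h1
      by_cases hb : ∃ x y, x ≠ y ∧ c x = c y ∧ d x ≠ d y
      · obtain ⟨c', hr, h2, h4⟩ := stage_two h3 c d e he h1 hb
        exact hr.trans (ih c' (by omega) h4)
      · push Not at hb
        refine s3 _ c le_rfl (fun x y => ⟨fun h => ?_, h1 x y⟩)
        by_cases hxy : x = y
        · rw [hxy]
        · exact hb x y hxy h
  -- first stage
  have s1 : ∀ n, ∀ c : G.Coloring (Fin m), Fintype.card (V × V) ≤ (agree c d).card + n →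
      Relation.ReflTransGen KempeStep c d := by
    intro n
    induction n with
    | zero =>
      intro c hn
      by_cases hb : ∃ x y, x ≠ y ∧ d x = d y ∧ c x ≠ c y
      · obtain ⟨c', _, h2⟩ := stage_one h3 c d e he hb
        have h4 : (agree c' d).card ≤ Fintype.card (V × V) := card_le_univ _
        omega
      · push Not at hb
        refine s2 _ c le_rfl (fun x y h => ?_)
        by_cases hxy : x = y
        · rw [hxy]
        · exact hb x y hxy h
    | succ n ih =>
      intro c hn
      by_cases hb : ∃ x y, x ≠ y ∧ d x = d y ∧ c x ≠ c y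
      · obtain ⟨c', hr, h2⟩ := stage_one h3 c d e he hb
        exact hr.trans (ih c' (by omega))
      · push Not at hb
        refine s2 _ c le_rfl (fun x y h => ?_)
        by_cases hxy : x = y
        · rw [hxy]
        · exact hb x y hxy h
  exact s1 (Fintype.card (V × V)) c (by omega)

end Pool.Agent.J4H91.Kempe
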